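import Mathlib
import Pool.Agent.H489R3.FriezeInt

set_option autoImplicit false

/-!
# Integer friezes take integer values on all cluster variables

All definitions used in the statement are in `Pool.Agent.H489R3.Defs`.
-/

namespace Pool.Agent.Results.MP_03aa11_co.ClusterIntegrality

open Finset Pool.Agent.H489R3

/-- **Integrality of cluster variables at integer friezes.** Let `k ≥ 2` and `w ≥ 0` (the case
`w = 0` is harmless), `n = k + w + 1`, and let `M` be a tame `SL_k`-frieze of width `w` all of
whose entries are integers (in particular, one with positive integer values). Then there is a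
matrix corresponding to `M`, and for every such matrix `A`, every cluster variable (and every
frozen variable) of the standard cluster structure of the Grassmannian `Gr(k, n)` has exactly
one value at `A`, and this value is an integer. -/
theorem result (k w : ℕ) (hk : 2 ≤ k) (M : ℤ → ℤ → ℚ) (hM : IsTameFrieze k w M)
    (hint : ∀ i j : ℤ, 0 ≤ j - i → j - i ≤ w - 1 → ∃ z : ℤ, M i j = z) :
    (∃ A : Matrix (Fin k) (Fin (k + (w + 1))) ℚ, Represents k w M A) ∧
    ∀ A : Matrix (Fin k) (Fin (k + (w + 1))) ℚ, Represents k w M A →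
      ∀ s : Seed (Vtx k (w + 1)) (RatFun k (w + 1)),
        Reach (mutable k (w + 1)) (rectSeed k (w + 1)) s →
        ∀ v : Vtx k (w + 1), ∃ z : ℤ, ∀ c : ℚ, HasValue A (s.x v) c ↔ c = z := by
  obtain ⟨K, rfl⟩ : ∃ K, k = K + 1 := ⟨k - 1, by omega⟩
  refine ⟨⟨friezeMatrix (K + 1) w M, friezeMatrix_cyclic hM, 0, Or.inl ?_⟩, ?_⟩
  · intro i j h1 h2
    rw [friezeMatrix_entry hM h1 h2, pl]
    simp only [zero_add]
  · intro A hA s hs v
    obtain ⟨Φ, hΦ, Z, hZ⟩ := int_rep hint hA
    obtain ⟨F, hF⟩ := cluster_poly (Nat.succ_pos w) hs v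
    obtain ⟨z, hz⟩ := evalAt_int hZ F
    rw [cluster_inv (Nat.succ_pos w) hs v hF Φ hΦ] at hz
    refine ⟨z, fun c => ⟨?_, ?_⟩⟩
    · rintro ⟨f, g, hg, h1, h2⟩
      rw [hF, ← map_mul] at h1
      have h3 := algMap_injective h1
      rw [← h3, map_mul, hz] at h2
      exact mul_right_cancel₀ hg h2
    · rintro rfl
      exact ⟨F, 1, by simp, by rw [hF]; simp, by rw [hz]; simp⟩

end Pool.Agent.Results.MP_03aa11_co.ClusterIntegrality
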